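import Pool.Agent.helper12.OB.SpecB

set_option autoImplicit false

namespace Pool.Agent.OB

open Pool.Agent.helper58.DC Pool.Agent.DI Pool.Agent.GR

/-- the tuples upstairs -/
abbrev BR2_X (G : Type) (n : ℕ) : Type := (G × G) × ((Fin n → G) × (Fin n → G)) × G

section

variable {G : Type} [Group G] {n : ℕ}

/-- conjugation of all entries -/
def BR2_cj (g : G) (x : BR2_X G n) : BR2_X G n :=
  ((g * x.1.1 * g⁻¹, g * x.1.2 * g⁻¹),
    (fun j => g * x.2.1.1 j * g⁻¹, fun j => g * x.2.1.2 j * g⁻¹), g * x.2.2 * g⁻¹)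

theorem BR2_cj_one (x : BR2_X G n) : BR2_cj 1 x = x := by
  simp [BR2_cj]

theorem BR2_cj_mul (g h : G) (x : BR2_X G n) : BR2_cj (g * h) x = BR2_cj g (BR2_cj h x) := by
  simp [BR2_cj, mul_assoc]

/-- the action -/
def BR2_act : G →* Equiv.Perm (BR2_X G n) where
  toFun g :=
    { toFun := BR2_cj g
      invFun := BR2_cj g⁻¹
      left_inv := fun x => by rw [← BR2_cj_mul, inv_mul_cancel, BR2_cj_one]
      right_inv := fun x => by rw [← BR2_cj_mul, mul_inv_cancel, BR2_cj_one] }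
  map_one' := Equiv.ext BR2_cj_one
  map_mul' g h := Equiv.ext (BR2_cj_mul g h)

theorem BR2_act_apply (g : G) (x : BR2_X G n) : BR2_act g x = BR2_cj g x := rfl

/-- the set of the entries -/
def BR2_ent (x : BR2_X G n) : Set G :=
  {x.1.1, x.1.2, x.2.2} ∪ (Set.range x.2.1.1 ∪ Set.range x.2.1.2)

theorem BR2_ent_cj (g : G) (x : BR2_X G n) :
    BR2_ent (BR2_cj g x) = (MulAut.conj g).toMonoidHom '' BR2_ent x := by
  unfold BR2_ent
  rw [Set.image_union, Set.image_union, ← Set.range_comp, ← Set.range_comp, Set.image_insert_eq,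
    Set.image_insert_eq, Set.image_singleton]
  rfl

theorem BR2_fix (g : G) (x : BR2_X G n) :
    BR2_cj g x = x ↔ g ∈ cz (Subgroup.closure (BR2_ent x)) := by
  rw [cz, Subgroup.centralizer_closure, Subgroup.mem_centralizer_iff]
  have h1 : ∀ a : G, g * a * g⁻¹ = a ↔ a * g = g * a := fun a => by
    rw [mul_inv_eq_iff_eq_mul]
    exact eq_comm
  constructor
  · intro h a ha
    rw [← h1]
    have e1 := congrArg (fun y : BR2_X G n => y.1.1) h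
    have e2 := congrArg (fun y : BR2_X G n => y.1.2) h
    have e3 := congrArg (fun y : BR2_X G n => y.2.1.1) h
    have e4 := congrArg (fun y : BR2_X G n => y.2.1.2) h
    have e5 := congrArg (fun y : BR2_X G n => y.2.2) h
    rcases ha with (rfl | rfl | rfl) | ⟨j, rfl⟩ | ⟨j, rfl⟩
    · exact e1
    · exact e2
    · exact e5
    · exact congrFun e3 j
    · exact congrFun e4 j
  · intro h
    have e1 := (h1 _).2 (h x.1.1 (Or.inl (Or.inl rfl)))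
    have e2 := (h1 _).2 (h x.1.2 (Or.inl (Or.inr (Or.inl rfl))))
    have e5 := (h1 _).2 (h x.2.2 (Or.inl (Or.inr (Or.inr rfl))))
    have e3 := fun j => (h1 _).2 (h (x.2.1.1 j) (Or.inr (Or.inl ⟨j, rfl⟩)))
    have e4 := fun j => (h1 _).2 (h (x.2.1.2 j) (Or.inr (Or.inr ⟨j, rfl⟩)))
    exact Prod.ext (Prod.ext e1 e2) (Prod.ext (Prod.ext (funext e3) (funext e4)) e5)

/-- the covering transformation -/
def BR2_σ (x : BR2_X G n) : BR2_X G n :=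
  ((x.1.1⁻¹, x.1.2⁻¹ * x.2.2), (x.2.1.2, x.2.1.1), x.1.2⁻¹ * x.2.2 * x.1.2)

theorem BR2_σσ (x : BR2_X G n) : BR2_σ (BR2_σ x) = x := by
  obtain ⟨⟨u, v⟩, ⟨z, z'⟩, S⟩ := x
  simp [BR2_σ, mul_assoc]

theorem BR2_σ_cj (g : G) (x : BR2_X G n) : BR2_σ (BR2_cj g x) = BR2_cj g (BR2_σ x) := by
  obtain ⟨⟨u, v⟩, ⟨z, z'⟩, S⟩ := x
  simp [BR2_σ, BR2_cj, mul_assoc]

theorem BR2_gen_le (x : BR2_X G n) :
    Subgroup.closure (BR2_ent (BR2_σ x)) ≤ Subgroup.closure (BR2_ent x) := by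
  have e1 : x.1.1 ∈ Subgroup.closure (BR2_ent x) := Subgroup.subset_closure (Or.inl (Or.inl rfl))
  have e2 : x.1.2 ∈ Subgroup.closure (BR2_ent x) :=
    Subgroup.subset_closure (Or.inl (Or.inr (Or.inl rfl)))
  have e5 : x.2.2 ∈ Subgroup.closure (BR2_ent x) :=
    Subgroup.subset_closure (Or.inl (Or.inr (Or.inr rfl)))
  have e3 : ∀ j, x.2.1.1 j ∈ Subgroup.closure (BR2_ent x) := fun j =>
    Subgroup.subset_closure (Or.inr (Or.inl ⟨j, rfl⟩))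
  have e4 : ∀ j, x.2.1.2 j ∈ Subgroup.closure (BR2_ent x) := fun j =>
    Subgroup.subset_closure (Or.inr (Or.inr ⟨j, rfl⟩))
  rw [Subgroup.closure_le]
  rintro a ((rfl | rfl | rfl) | ⟨j, rfl⟩ | ⟨j, rfl⟩)
  · exact Subgroup.inv_mem _ e1
  · exact Subgroup.mul_mem _ (Subgroup.inv_mem _ e2) e5
  · exact Subgroup.mul_mem _ (Subgroup.mul_mem _ (Subgroup.inv_mem _ e2) e5) e2
  · exact e4 j
  · exact e3 j

/-- the configuration -/
def BR2_cfg (G : Type) [Group G] (n : ℕ) : Cfg 2 G (BR2_X G n) where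
  act := BR2_act
  gen x := Subgroup.closure (BR2_ent x)
  gen_act g x := by
    rw [BR2_act_apply, BR2_ent_cj, cj, MonoidHom.map_closure]
  fix := BR2_fix
  σ := BR2_σ
  κ _ := 1
  σ_act := BR2_σ_cj
  gen_σ x := by
    refine le_antisymm (BR2_gen_le x) ?_
    conv_lhs => rw [← BR2_σσ x]
    exact BR2_gen_le _
  κ_mem _ := Subgroup.one_mem _
  σ_pow x := by
    rw [map_one]
    exact BR2_σσ x
  κ_σ _ := rfl
  κ_act g _ := by
    rw [mul_one, mul_inv_cancel]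

theorem BR2_qq_conj (g : G) (z : Fin n → G) : qq (fun j => g * z j * g⁻¹) = g * qq z * g⁻¹ := by
  unfold qq
  have h : List.ofFn (fun j => g * z j * g⁻¹) = (List.ofFn z).map (MulAut.conj g) := by
    rw [List.map_ofFn]
    rfl
  rw [h, ← map_list_prod]
  rfl

theorem BR2_tp_conj (p : ℕ) (g x : G) : tp p (g * x * g⁻¹) = tp p x := by
  unfold tp
  rw [conj_pow, conj_eq_one_iff]

theorem BR2_tp_sq (p : ℕ) (x : G) : tp p x * tp p x = tp p x := by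
  unfold tp
  split_ifs
  · exact one_mul 1
  · exact mul_zero 0

theorem BR2_tp_int {p : ℕ} {M : Ideal (integralClosure ℤ ℂ)} (h : Setup p M) (q : ℕ) (x : G) :
    IntAt M (tp q x) := by
  unfold tp
  split_ifs
  · exact IntAt.one h
  · exact IntAt.zero h

theorem BR2_inv {M : Ideal (integralClosure ℤ ℂ)} {f : G → ℂ} (hf : ClF M f) (x y : G) :
    f (y⁻¹ * x * y) = f x := by
  have h := hf.cls x y⁻¹
  rwa [inv_inv] at h

/-- the weight -/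
noncomputable def BR2_θ (g₁ g₂ : G → ℂ) (x : BR2_X G n) : ℂ :=
  g₁ x.2.2 * g₂ (wd2 x.1.1 x.1.2 (qq x.2.1.1) (qq x.2.1.2) x.2.2)⁻¹ *
    ((∏ j, tp 2 (x.2.1.1 j)) * ∏ j, tp 2 (x.2.1.2 j))

theorem BR2_θ_int {M : Ideal (integralClosure ℤ ℂ)} (h : Setup 2 M) {g₁ g₂ : G → ℂ}
    (h₁ : ClF M g₁) (h₂ : ClF M g₂) (x : BR2_X G n) : IntAt M (BR2_θ g₁ g₂ x) := by
  unfold BR2_θ
  refine ((h₁.int _).mul h (h₂.int _)).mul h (IntAt.mul h ?_ ?_)
  · exact IntAt.prod h _ fun j _ => BR2_tp_int h _ _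
  · exact IntAt.prod h _ fun j _ => BR2_tp_int h _ _

theorem BR2_θ_act {M : Ideal (integralClosure ℤ ℂ)} {g₁ g₂ : G → ℂ}
    (h₁ : ClF M g₁) (h₂ : ClF M g₂) (g : G) (x : BR2_X G n) :
    BR2_θ g₁ g₂ (BR2_cj g x) = BR2_θ g₁ g₂ x := by
  obtain ⟨⟨u, v⟩, ⟨z, z'⟩, S⟩ := x
  simp only [BR2_θ, BR2_cj, BR2_qq_conj, BR2_tp_conj, h₁.cls]
  have h3 : (wd2 (g * u * g⁻¹) (g * v * g⁻¹) (g * qq z * g⁻¹) (g * qq z' * g⁻¹) (g * S * g⁻¹))⁻¹
      = g * (wd2 u v (qq z) (qq z') S)⁻¹ * g⁻¹ := by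
    unfold wd2
    group
  rw [h3, h₂.cls]

theorem BR2_θ_σ {M : Ideal (integralClosure ℤ ℂ)} {g₁ g₂ : G → ℂ}
    (h₁ : ClF M g₁) (h₂ : ClF M g₂) (x : BR2_X G n) :
    BR2_θ g₁ g₂ (BR2_σ x) = BR2_θ g₁ g₂ x := by
  obtain ⟨⟨u, v⟩, ⟨z, z'⟩, S⟩ := x
  simp only [BR2_θ, BR2_σ]
  have h3 : (wd2 u⁻¹ (v⁻¹ * S) (qq z') (qq z) (v⁻¹ * S * v))⁻¹
      = (u * qq z * v)⁻¹ * (wd2 u v (qq z) (qq z') S)⁻¹ * (u * qq z * v) := by
    unfold wd2
    group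
  rw [h3, BR2_inv h₂, BR2_inv h₁, mul_comm (∏ j, tp 2 (z' j))]

/-- the pairs downstairs -/
def BR2_ψ (y : (Fin (n + 2) → G) × G) : BR2_X G n × G :=
  (((y.1 0 * y.1 1, y.2 * y.1 0), (fun j => y.1 j.succ.succ,
    fun j => y.1 0 * y.1 j.succ.succ * (y.1 0)⁻¹), y.2 ^ 2), y.1 0)

theorem BR2_qq_succ (a : Fin (n + 2) → G) :
    qq a = a 0 * (a 1 * qq fun j => a j.succ.succ) := by
  unfold qq
  rw [List.ofFn_succ, List.ofFn_succ, List.prod_cons, List.prod_cons]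
  rfl

theorem BR2_bij : Set.BijOn (BR2_ψ (G := G) (n := n)) {y | y.1 0 ^ 2 = 1 ∧ y.1 1 ^ 2 = 1}
    {w | BR2_cj w.2 w.1 = BR2_σ w.1 ∧ w.2 ^ 2 = 1} := by
  refine ⟨?_, ?_, ?_⟩
  · rintro ⟨a, s⟩ ⟨h0, h1⟩
    simp only at h0 h1
    refine ⟨?_, h0⟩
    have i0 : (a 0)⁻¹ = a 0 := by
      rw [inv_eq_iff_mul_eq_one, ← sq, h0]
    have i1 : (a 1)⁻¹ = a 1 := by
      rw [inv_eq_iff_mul_eq_one, ← sq, h1]
    have m0 : a 0 * a 0 = 1 := by rw [← sq, h0]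
    have k0 : ∀ x : G, a 0 * (a 0 * x) = x := fun x => by rw [← mul_assoc, m0, one_mul]
    simp only [BR2_ψ, BR2_cj, BR2_σ, mul_inv_rev, i0, i1, sq, mul_assoc, k0, m0, mul_one,
      inv_mul_cancel_left]
  · rintro ⟨a, s⟩ _ ⟨b, t⟩ _ h
    have e0 : a 0 = b 0 := congrArg (fun w : BR2_X G n × G => w.2) h
    have e1 : a 0 * a 1 = b 0 * b 1 := congrArg (fun w : BR2_X G n × G => w.1.1.1) h
    have e2 : s * a 0 = t * b 0 := congrArg (fun w : BR2_X G n × G => w.1.1.2) h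
    have e3 : (fun j : Fin n => a j.succ.succ) = fun j => b j.succ.succ :=
      congrArg (fun w : BR2_X G n × G => w.1.2.1.1) h
    rw [e0] at e1 e2
    have e1' := mul_left_cancel e1
    have e2' := mul_right_cancel e2
    refine Prod.ext (funext fun i => ?_) e2'
    refine Fin.cases e0 (fun i => ?_) i
    refine Fin.cases e1' (fun i => ?_) i
    exact congrFun e3 i
  · rintro ⟨⟨⟨u, v⟩, ⟨z, z'⟩, S⟩, h⟩ ⟨h1, h2⟩
    simp only at h1 h2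
    have hh : h⁻¹ = h := by
      rw [inv_eq_iff_mul_eq_one, ← sq, h2]
    have e1 : h * u * h⁻¹ = u⁻¹ := congrArg (fun w : BR2_X G n => w.1.1) h1
    have e2 : h * v * h⁻¹ = v⁻¹ * S := congrArg (fun w : BR2_X G n => w.1.2) h1
    have e3 : (fun j => h * z j * h⁻¹) = z' := congrArg (fun w : BR2_X G n => w.2.1.1) h1
    refine ⟨(Fin.cons h (Fin.cons (h⁻¹ * u) z), v * h⁻¹), ⟨h2, ?_⟩, ?_⟩
    · show (h⁻¹ * u) ^ 2 = 1
      rw [sq, hh]
      have e4 : h * u * (h * u) = h * u * h⁻¹ * u := by rw [hh, mul_assoc (h * u) h u]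
      rw [e4, e1, inv_mul_cancel]
    · have e5 : (v * h⁻¹) ^ 2 = S := by
        have e6 : (v * h⁻¹) ^ 2 = v * (h * v * h⁻¹) := by
          rw [sq, hh]
          simp only [mul_assoc]
        rw [e6, e2, mul_inv_cancel_left]
      show (((h * (h⁻¹ * u), v * h⁻¹ * h), (z, fun j => h * z j * h⁻¹), (v * h⁻¹) ^ 2), h) = _
      rw [e5, e3, mul_inv_cancel_left, inv_mul_cancel_right]

theorem BR2_gen (a : Fin (n + 2) → G) (s : G) :
    Subgroup.closure (Set.range a ∪ {s}) =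
      Subgroup.closure (BR2_ent (BR2_ψ (a, s)).1) ⊔ Subgroup.zpowers (a 0) := by
  apply le_antisymm
  · set K := Subgroup.closure (BR2_ent (BR2_ψ (a, s)).1) ⊔ Subgroup.zpowers (a 0) with hK
    have f0 : a 0 ∈ K := Subgroup.mem_sup_right (Subgroup.mem_zpowers _)
    have f1 : a 0 * a 1 ∈ K :=
      Subgroup.mem_sup_left (Subgroup.subset_closure (Or.inl (Or.inl rfl)))
    have f2 : s * a 0 ∈ K :=
      Subgroup.mem_sup_left (Subgroup.subset_closure (Or.inl (Or.inr (Or.inl rfl))))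
    have f3 : ∀ j : Fin n, a j.succ.succ ∈ K := fun j =>
      Subgroup.mem_sup_left (Subgroup.subset_closure (Or.inr (Or.inl ⟨j, rfl⟩)))
    rw [Subgroup.closure_le]
    rintro x (⟨i, rfl⟩ | rfl)
    · refine Fin.cases f0 (fun i => ?_) i
      refine Fin.cases ?_ (fun i => f3 i) i
      exact (Subgroup.mul_mem_cancel_left K f0).1 f1
    · exact (Subgroup.mul_mem_cancel_right K f0).1 f2
  · have f : ∀ i, a i ∈ Subgroup.closure (Set.range a ∪ {s}) := fun i =>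
      Subgroup.subset_closure (Or.inl ⟨i, rfl⟩)
    have fs : s ∈ Subgroup.closure (Set.range a ∪ {s}) := Subgroup.subset_closure (Or.inr rfl)
    rw [sup_le_iff, Subgroup.closure_le, Subgroup.zpowers_le]
    refine ⟨?_, f 0⟩
    rintro x ((rfl | rfl | rfl) | ⟨j, rfl⟩ | ⟨j, rfl⟩)
    · exact Subgroup.mul_mem _ (f 0) (f 1)
    · exact Subgroup.mul_mem _ fs (f 0)
    · exact Subgroup.pow_mem _ fs 2
    · exact f _
    · exact Subgroup.mul_mem _ (Subgroup.mul_mem _ (f 0) (f _)) (Subgroup.inv_mem _ (f 0))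

theorem BR2_tp_one {x : G} (h : x ^ 2 = 1) : tp 2 x = 1 := by
  unfold tp
  rw [if_pos h]

theorem BR2_tp_zero {x : G} (h : x ^ 2 ≠ 1) : tp 2 x = 0 := by
  unfold tp
  rw [if_neg h]

theorem BR2_down (g₁ g₂ : G → ℂ) :
    ∑ᶠ z ∈ {z : BR2_X G n × G | BR2_cj z.2 z.1 = BR2_σ z.1 ∧ z.2 ^ 2 = 1},
        BR2_θ g₁ g₂ z.1 * (W 2 (Subgroup.closure (BR2_ent z.1) ⊔ Subgroup.zpowers z.2) : ℂ) =
      Sp 2 (pw 2 g₁) (pw 2 g₂) (n + 2) := by
  set F : (Fin (n + 2) → G) × G → ℂ := fun x =>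
    pw 2 g₁ x.2 * pw 2 g₂ (qq x.1 * x.2)⁻¹ * (∏ j, tp 2 (x.1 j)) *
    (W 2 (Subgroup.closure (Set.range x.1 ∪ {x.2})) : ℂ) with hF
  have h1 : Sp 2 (pw 2 g₁) (pw 2 g₂) (n + 2) =
      ∑ᶠ y ∈ {y : (Fin (n + 2) → G) × G | y.1 0 ^ 2 = 1 ∧ y.1 1 ^ 2 = 1}, F y := by
    rw [finsum_mem_def, Set.indicator_eq_self.2]
    · rfl
    · intro y hy
      by_contra hcon
      apply hy
      have h2 : (∏ j, tp 2 (y.1 j)) = 0 := by
        rw [Fin.prod_univ_succ, Fin.prod_univ_succ]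
        by_cases h0 : y.1 0 ^ 2 = 1
        · have h3 : y.1 1 ^ 2 ≠ 1 := fun h3 => hcon ⟨h0, h3⟩
          have h4 : tp 2 (y.1 (Fin.succ 0)) = 0 := BR2_tp_zero h3
          rw [h4, zero_mul, mul_zero]
        · rw [BR2_tp_zero h0, zero_mul]
      rw [hF]
      simp only [h2, mul_zero, zero_mul]
  rw [h1]
  symm
  refine finsum_mem_eq_of_bijOn BR2_ψ BR2_bij ?_
  rintro ⟨a, s⟩ ⟨h0, h1⟩
  simp only at h0 h1
  rw [hF]
  simp only
  have i0 : (a 0)⁻¹ = a 0 := by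
    rw [inv_eq_iff_mul_eq_one, ← sq, h0]
  have i1 : (a 1)⁻¹ = a 1 := by
    rw [inv_eq_iff_mul_eq_one, ← sq, h1]
  have m0 : a 0 * a 0 = 1 := by rw [← sq, h0]
  have k0 : ∀ x : G, a 0 * (a 0 * x) = x := fun x => by rw [← mul_assoc, m0, one_mul]
  have hW : (BR2_ψ (a, s)).2 = a 0 := rfl
  rw [BR2_gen a s, hW]
  congr 1
  unfold BR2_θ pw
  have hw : (wd2 (BR2_ψ (a, s)).1.1.1 (BR2_ψ (a, s)).1.1.2 (qq (BR2_ψ (a, s)).1.2.1.1)
      (qq (BR2_ψ (a, s)).1.2.1.2) (BR2_ψ (a, s)).1.2.2)⁻¹ = (qq a * s)⁻¹ ^ 2 := by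
    rw [inv_pow]
    congr 1
    have hq : qq (BR2_ψ (a, s)).1.2.1.2 = a 0 * qq (fun j : Fin n => a j.succ.succ) * (a 0)⁻¹ :=
      BR2_qq_conj _ _
    rw [hq, BR2_qq_succ a]
    show wd2 (a 0 * a 1) (s * a 0) (qq fun j : Fin n => a j.succ.succ) _ (s ^ 2) = _
    unfold wd2
    simp only [mul_inv_rev, i0, i1, sq, mul_assoc, k0, inv_mul_cancel_left]
  have ht : (∏ j, tp 2 ((BR2_ψ (a, s)).1.2.1.1 j)) * (∏ j, tp 2 ((BR2_ψ (a, s)).1.2.1.2 j)) =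
      ∏ j, tp 2 (a j) := by
    rw [Fin.prod_univ_succ, Fin.prod_univ_succ, ← Finset.prod_mul_distrib]
    have h4 : tp 2 (a (Fin.succ 0)) = 1 := BR2_tp_one h1
    rw [h4, BR2_tp_one h0, one_mul, one_mul]
    refine Finset.prod_congr rfl fun j _ => ?_
    show tp 2 (a j.succ.succ) * tp 2 (a 0 * a j.succ.succ * (a 0)⁻¹) = _
    rw [BR2_tp_conj, BR2_tp_sq]
  rw [hw, ht]
  rfl

end

/-- **BR2** -/
theorem BR2 (hLDB : LDB_stmt) (hTW2 : TW2_stmt) : BR2_stmt := by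
  intro M hM G _ _ n g₁ g₂ h₁ h₂
  have hfin : Finite (BR2_X G n) := inferInstance
  obtain ⟨w, hw, hw'⟩ := hLDB 2 M hM G (BR2_X G n) (BR2_cfg G n) (BR2_θ g₁ g₂)
    (BR2_θ_int hM h₁ h₂) (BR2_θ_act h₁ h₂) (BR2_θ_σ h₁ h₂)
  have e1 : ∑ᶠ x : BR2_X G n, BR2_θ g₁ g₂ x * (W 2 ((BR2_cfg G n).gen x) : ℂ) =
      To 2 g₁ g₂ (2 * n) := hTW2 G n g₁ g₂
  have e2 : ∑ᶠ z ∈ {z : BR2_X G n × G | (BR2_cfg G n).act z.2 z.1 = (BR2_cfg G n).σ z.1 ∧
        z.2 ^ 2 = (BR2_cfg G n).κ z.1},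
      BR2_θ g₁ g₂ z.1 * (W 2 ((BR2_cfg G n).gen z.1 ⊔ Subgroup.zpowers z.2) : ℂ) =
      Sp 2 (pw 2 g₁) (pw 2 g₂) (n + 2) := BR2_down g₁ g₂
  rw [e1, e2] at hw'
  refine ⟨-((2 : ℕ) * w), InM.neg (InM.mul_right hM (InM.prime_mem hM) hw), ?_⟩
  push_cast at hw' ⊢
  linear_combination -hw'

end Pool.Agent.OB
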