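import Pool.Agent.helper22.OB.SpecZ

set_option autoImplicit false

namespace Pool.Agent.OB

open Pool.Agent.helper58.DC Pool.Agent.DI Pool.Agent.GR

theorem ZTI_CF {G : Type} [Group G] {z : G → ℂ} (hz : ∀ x y, z (y * x * y⁻¹) = z x) :
    CF (⊤ : Subgroup G) z :=
  ⟨fun h _ x => hz x h, fun x hx => absurd (Subgroup.mem_top x) hx⟩

/-- **ZTI** -/
theorem ZTI (hBRH : BRH_stmt) : ZTI_stmt := by
  intro p M hS G _ _ z w hzc hwc hz hw y hy hzy g hg
  have hgC : g ∈ Cz (⊤ : Subgroup G) y := by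
    refine Subgroup.mem_inf.2 ⟨Subgroup.mem_top g, Subgroup.mem_centralizer_iff.2 ?_⟩
    intro h hh
    rw [Set.mem_singleton_iff.1 hh]
    exact hg.eq
  obtain ⟨h1, -, -⟩ := hBRH p M hS G ⊤ y (Subgroup.mem_top y) hy z w (ZTI_CF hzc) (ZTI_CF hwc) hz hw
  have h2 := h1 g hgC
  have hrz : ∀ x, InM M (rs y z x) := by
    intro x
    unfold rs
    split_ifs with h
    · exact hzy x h
    · exact InM.zero hS
  have hrw : ∀ x, IntAt M (rs y w x) := by
    intro x
    unfold rs
    split_ifs with h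
    · exact hw x
    · exact IntAt.zero hS
  have h3 : InM M (cv (rs y z) (rs y w) g) := by
    unfold cv
    exact InM.finsum hS fun x => InM.mul_right hS (hrz x) (hrw _)
  have h4 := InM.add hS h2 h3
  rwa [sub_add_cancel] at h4

end Pool.Agent.OB
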